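import Pool.Agent.H891R2.Sym.Ten

namespace Pool.Agent.Results.MP_efd99a_gt.TwoNumberCounterexample

open Pool.Agent.Helper381 Pool.Agent.H891R2.Sym Bundle Manifold
open scoped ContDiff

/-- There is a compact connected smooth Riemannian manifold `M` of dimension five which is a
Riemannian symmetric space and whose two-number is at most `8`, while the total mod 2 Betti number
`∑ᵢ dim Hⁱ(M; ℤ₂)` is at least `10`; in particular the two numbers differ. -/
theorem result :
    ∃ (E M : Type) (_ : NormedAddCommGroup E) (_ : NormedSpace ℝ E) (_ : FiniteDimensional ℝ E)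
      (_ : MetricSpace M) (_ : ChartedSpace E M) (_ : IsManifold 𝓘(ℝ, E) ∞ M)
      (_ : RiemannianBundle (fun x : M => TangentSpace 𝓘(ℝ, E) x)),
      Module.finrank ℝ E = 5 ∧
      IsContMDiffRiemannianBundle 𝓘(ℝ, E) ∞ E (fun x : M => TangentSpace 𝓘(ℝ, E) x) ∧
      IsRiemannianManifold 𝓘(ℝ, E) M ∧ CompactSpace M ∧ ConnectedSpace M ∧ IsSymmetric M ∧
      twoNumber M ≤ 8 ∧ 10 ≤ totalBetti (ZMod 2) M ∧
      twoNumber M ≠ totalBetti (ZMod 2) M := by
  refine ⟨E5, M5, inferInstance, inferInstance, inferInstance, inferInstance, inferInstance,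
    inferInstance, inferInstance, ?_, inferInstance, inferInstance, inferInstance, ?_, symmetric5,
    two_le_8, ten_le, ?_⟩
  · simp
  · have : Nonempty M5 := ⟨pt (0, true)⟩
    exact { toPreconnectedSpace := pre5, toNonempty := this }
  · intro h
    have h1 := two_le_8
    have h2 := ten_le
    rw [← h] at h2
    exact absurd (h2.trans h1) (by norm_num)

end Pool.Agent.Results.MP_efd99a_gt.TwoNumberCounterexample
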